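import Pool.Agent.Q211.FI.Defs

/-!
# The Cayley graph of `Z_7 ⋊ Z` (with `t a t⁻¹ = a²`) and its automorphisms
-/

set_option autoImplicit false

open MeasureTheory ProbabilityTheory Filter Topology Set

namespace Pool.Agent.Q211.SD

/-- The vertices. -/
abbrev V := ZMod 7 × ℤ

/-- The powers of `2` modulo `7`. -/
def p2 (i : ℤ) : ZMod 7 := if i % 3 = 0 then 1 else if i % 3 = 1 then 2 else 4

theorem p2_cases (i : ℤ) : (i % 3 = 0 ∧ p2 i = 1) ∨ (i % 3 = 1 ∧ p2 i = 2) ∨ (i % 3 = 2 ∧ p2 i = 4) := by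
  unfold p2
  have : i % 3 = 0 ∨ i % 3 = 1 ∨ i % 3 = 2 := by omega
  rcases this with h | h | h <;> simp [h]

theorem p2_add (i j : ℤ) : p2 (i + j) = p2 i * p2 j := by
  rcases p2_cases i with ⟨h1, h2⟩ | ⟨h1, h2⟩ | ⟨h1, h2⟩ <;>
  rcases p2_cases j with ⟨h3, h4⟩ | ⟨h3, h4⟩ | ⟨h3, h4⟩ <;>
  rcases p2_cases (i + j) with ⟨h5, h6⟩ | ⟨h5, h6⟩ | ⟨h5, h6⟩ <;>
  first
  | (exfalso; omega)
  | (rw [h2, h4, h6]; rfl)

theorem p2_zero : p2 0 = 1 := by decide

theorem p2_ne (i : ℤ) : p2 i ≠ 0 := by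
  rcases p2_cases i with ⟨h1, h2⟩ | ⟨h1, h2⟩ | ⟨h1, h2⟩ <;> rw [h2] <;> decide

theorem p2_ne_neg (i : ℤ) : p2 i ≠ -p2 i := by
  rcases p2_cases i with ⟨h1, h2⟩ | ⟨h1, h2⟩ | ⟨h1, h2⟩ <;> rw [h2] <;> decide

theorem p2_inv (i : ℤ) : p2 i * p2 (-i) = 1 := by
  rw [← p2_add, add_neg_cancel, p2_zero]

/-- The neighbours: up, down, right, left. -/
def nb (v : V) : Fin 4 → V
  | 0 => (v.1, v.2 + 1)
  | 1 => (v.1, v.2 - 1)
  | 2 => (v.1 + p2 v.2, v.2)
  | 3 => (v.1 - p2 v.2, v.2)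

/-- The opposite direction. -/
def opp : Fin 4 → Fin 4
  | 0 => 1
  | 1 => 0
  | 2 => 3
  | 3 => 2

theorem nb_opp (v : V) (k : Fin 4) : nb (nb v k) (opp k) = v := by
  fin_cases k <;> simp [nb, opp]

theorem nb_ne (v : V) (k : Fin 4) : nb v k ≠ v := by
  have := p2_ne v.2
  obtain ⟨x, i⟩ := v
  fin_cases k <;> simp_all [nb]

/-- The graph. -/
def G : SimpleGraph V where
  Adj u v := ∃ k, v = nb u k
  symm := ⟨by
    rintro u v ⟨k, rfl⟩
    exact ⟨opp k, (nb_opp u k).symm⟩⟩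
  loopless := ⟨by
    rintro v ⟨k, hk⟩
    exact nb_ne v k hk.symm⟩

theorem adj_iff (u v : V) : G.Adj u v ↔ ∃ k, v = nb u k := Iff.rfl

theorem nb_inj (v : V) : Function.Injective (nb v) := by
  have h1 := p2_ne v.2
  have h2 := p2_ne_neg v.2
  obtain ⟨x, i⟩ := v
  simp only at h1 h2
  have h3 : ¬ (p2 i = -p2 i) := h2
  intro k l h
  fin_cases k <;> fin_cases l <;> simp_all [nb, sub_eq_add_neg]

theorem regular (v : V) : (G.neighborSet v).ncard = 4 := by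
  have h : G.neighborSet v = nb v '' Set.univ := by
    ext u
    rw [SimpleGraph.mem_neighborSet, adj_iff]
    simp [eq_comm]
  rw [h, Set.ncard_image_of_injective _ (nb_inj v), Set.ncard_univ]
  simp

/-- The signs. -/
def sg (e : Bool) : ZMod 7 := if e then 1 else -1

theorem sg_sq (e : Bool) : sg e * sg e = 1 := by
  cases e <;> decide

/-- The affine bijections. -/
def aff (c : ZMod 7) (j : ℤ) (e : Bool) : V ≃ V where
  toFun v := (sg e * p2 j * v.1 + c, v.2 + j)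
  invFun v := (sg e * p2 (-j) * (v.1 - c), v.2 - j)
  left_inv v := by
    have h1 := p2_inv j
    have h2 := sg_sq e
    obtain ⟨x, i⟩ := v
    simp only [add_sub_cancel_right, Prod.mk.injEq, and_true]
    calc sg e * p2 (-j) * (sg e * p2 j * x) = (sg e * sg e) * (p2 j * p2 (-j)) * x := by ring
      _ = x := by rw [h1, h2]; ring
  right_inv v := by
    have h1 := p2_inv j
    have h2 := sg_sq e
    obtain ⟨x, i⟩ := v
    simp only [sub_add_cancel, Prod.mk.injEq, and_true]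
    calc sg e * p2 j * (sg e * p2 (-j) * (x - c)) + c =
        (sg e * sg e) * (p2 j * p2 (-j)) * (x - c) + c := by ring
      _ = x := by rw [h1, h2]; ring

/-- The effect on directions. -/
def dir (e : Bool) : Fin 4 → Fin 4
  | 0 => 0
  | 1 => 1
  | 2 => if e then 2 else 3
  | 3 => if e then 3 else 2

theorem dir_dir (e : Bool) (k : Fin 4) : dir e (dir e k) = k := by
  cases e <;> fin_cases k <;> rfl

theorem aff_nb (c : ZMod 7) (j : ℤ) (e : Bool) (v : V) (k : Fin 4) :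
    aff c j e (nb v k) = nb (aff c j e v) (dir e k) := by
  obtain ⟨x, i⟩ := v
  cases e <;> fin_cases k <;> simp [aff, nb, dir, sg, p2_add] <;> ring

/-- The affine automorphisms. -/
def affG (c : ZMod 7) (j : ℤ) (e : Bool) : G ≃g G where
  toEquiv := aff c j e
  map_rel_iff' := by
    intro u v
    constructor
    · rintro ⟨k, hk⟩
      refine ⟨dir e k, ?_⟩
      apply (aff c j e).injective
      rw [aff_nb, dir_dir]
      exact hk
    · rintro ⟨k, rfl⟩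
      exact ⟨dir e k, aff_nb c j e u k⟩

theorem affG_apply (c : ZMod 7) (j : ℤ) (e : Bool) (v : V) :
    affG c j e v = (sg e * p2 j * v.1 + c, v.2 + j) := rfl

theorem affG_symm_apply (c : ZMod 7) (j : ℤ) (e : Bool) (v : V) :
    (affG c j e).symm v = (sg e * p2 (-j) * (v.1 - c), v.2 - j) := rfl

theorem affG_zero (v : V) : affG v.1 v.2 true (0, 0) = v := by
  rw [affG_apply]
  simp

theorem transitive (u v : V) : ∃ γ : G ≃g G, γ u = v := by
  refine ⟨(affG u.1 u.2 true).symm.trans (affG v.1 v.2 true), ?_⟩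
  have h : (affG u.1 u.2 true).symm u = (0, 0) := by
    rw [RelIso.symm_apply_eq]
    exact (affG_zero u).symm
  show affG v.1 v.2 true ((affG u.1 u.2 true).symm u) = v
  rw [h, affG_zero]

theorem reach_up (x : ZMod 7) (i : ℤ) : G.Reachable (x, i) (x, i + 1) :=
  SimpleGraph.Adj.reachable ⟨0, rfl⟩

theorem reach_level (x : ZMod 7) (i : ℤ) : G.Reachable (x, 0) (x, i) := by
  induction i with
  | zero => exact SimpleGraph.Reachable.refl _
  | succ n ih => exact ih.trans (reach_up _ _)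
  | pred n ih =>
    have h := reach_up x (-(n : ℤ) - 1)
    rw [sub_add_cancel] at h
    exact ih.trans h.symm

theorem reach_zero (n : ℕ) : G.Reachable (0, 0) ((n : ZMod 7), 0) := by
  induction n with
  | zero => simp
  | succ n ih =>
    refine ih.trans (SimpleGraph.Adj.reachable ⟨2, ?_⟩)
    simp [nb, p2_zero]

theorem connected : G.Connected := by
  have : Nonempty V := ⟨(0, 0)⟩
  refine ⟨fun u v => ?_⟩
  have h : ∀ w : V, G.Reachable (0, 0) w := by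
    rintro ⟨x, i⟩
    refine SimpleGraph.Reachable.trans ?_ (reach_level x i)
    have := reach_zero x.val
    rwa [ZMod.natCast_zmod_val] at this
  exact (h u).symm.trans (h v)

/-- There is a five cycle through `p, v, q`. -/
def Five (p v q : V) : Prop := ∃ a b, G.Adj p a ∧ G.Adj a b ∧ G.Adj b q ∧ a ≠ v ∧ b ≠ v ∧ a ≠ q ∧ b ≠ p

/-- Vertical edges. -/
def T (v w : V) : Prop := ∃ q, G.Adj v w ∧ G.Adj v q ∧ q ≠ w ∧ ¬ Five w v q

/-- Upward edges. -/
def Up (v w : V) : Prop := T v w ∧ ∃ a b c, G.Adj w a ∧ ¬ T w a ∧ T a b ∧ G.Adj b c ∧ ¬ T b c ∧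
  G.Adj c v ∧ ¬ T c v

theorem adj_aut (γ : G ≃g G) (u v : V) : G.Adj (γ u) (γ v) ↔ G.Adj u v := γ.map_rel_iff

theorem Five_aut (γ : G ≃g G) (p v q : V) : Five (γ p) (γ v) (γ q) ↔ Five p v q := by
  unfold Five
  constructor
  · rintro ⟨a, b, h1, h2, h3, h4, h5, h6, h7⟩
    obtain ⟨a, rfl⟩ := γ.surjective a
    obtain ⟨b, rfl⟩ := γ.surjective b
    rw [adj_aut] at h1 h2 h3
    exact ⟨a, b, h1, h2, h3, fun h => h4 (by rw [h]), fun h => h5 (by rw [h]),
      fun h => h6 (by rw [h]), fun h => h7 (by rw [h])⟩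
  · rintro ⟨a, b, h1, h2, h3, h4, h5, h6, h7⟩
    exact ⟨γ a, γ b, (adj_aut γ _ _).2 h1, (adj_aut γ _ _).2 h2, (adj_aut γ _ _).2 h3,
      fun h => h4 (γ.injective h), fun h => h5 (γ.injective h), fun h => h6 (γ.injective h),
      fun h => h7 (γ.injective h)⟩

theorem T_aut (γ : G ≃g G) (v w : V) : T (γ v) (γ w) ↔ T v w := by
  unfold T
  constructor
  · rintro ⟨q, h1, h2, h3, h4⟩
    obtain ⟨q, rfl⟩ := γ.surjective q
    rw [adj_aut] at h1 h2
    rw [Five_aut] at h4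
    exact ⟨q, h1, h2, fun h => h3 (by rw [h]), h4⟩
  · rintro ⟨q, h1, h2, h3, h4⟩
    refine ⟨γ q, (adj_aut γ _ _).2 h1, (adj_aut γ _ _).2 h2, fun h => h3 (γ.injective h), ?_⟩
    rwa [Five_aut]

theorem Up_aut (γ : G ≃g G) (v w : V) : Up (γ v) (γ w) ↔ Up v w := by
  unfold Up
  rw [T_aut]
  refine and_congr_right fun _ => ?_
  constructor
  · rintro ⟨a, b, c, h1, h2, h3, h4, h5, h6, h7⟩
    obtain ⟨a, rfl⟩ := γ.surjective a
    obtain ⟨b, rfl⟩ := γ.surjective b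
    obtain ⟨c, rfl⟩ := γ.surjective c
    rw [adj_aut] at h1 h4 h6
    rw [T_aut] at h2 h3 h5 h7
    exact ⟨a, b, c, h1, h2, h3, h4, h5, h6, h7⟩
  · rintro ⟨a, b, c, h1, h2, h3, h4, h5, h6, h7⟩
    refine ⟨γ a, γ b, γ c, ?_⟩
    rw [adj_aut, adj_aut, adj_aut, T_aut, T_aut, T_aut, T_aut]
    exact ⟨h1, h2, h3, h4, h5, h6, h7⟩

/-- A decidable version of `Five` around the base vertex. -/
def five (k l : Fin 4) : Bool := decide (∃ a b c : Fin 4,
  nb (nb (nb (nb (0, 0) k) a) b) c = nb (0, 0) l ∧ nb (nb (0, 0) k) a ≠ (0, 0) ∧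
  nb (nb (nb (0, 0) k) a) b ≠ (0, 0) ∧ nb (nb (0, 0) k) a ≠ nb (0, 0) l ∧
  nb (nb (nb (0, 0) k) a) b ≠ nb (0, 0) k)

theorem five_iff (k l : Fin 4) : Five (nb (0, 0) k) (0, 0) (nb (0, 0) l) ↔ five k l = true := by
  unfold Five five
  rw [decide_eq_true_eq]
  constructor
  · rintro ⟨_, _, ⟨a, rfl⟩, ⟨b, rfl⟩, ⟨c, h⟩, h4, h5, h6, h7⟩
    exact ⟨a, b, c, h.symm, h4, h5, h6, h7⟩
  · rintro ⟨a, b, c, h, h4, h5, h6, h7⟩
    exact ⟨_, _, ⟨a, rfl⟩, ⟨b, rfl⟩, ⟨c, h.symm⟩, h4, h5, h6, h7⟩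

theorem five_table : ∀ k l : Fin 4, k ≠ l →
    (five k l = false ↔ (k = 0 ∧ l = 1) ∨ (k = 1 ∧ l = 0)) := by
  decide +kernel

theorem T_base (w : V) : T (0, 0) w ↔ w = nb (0, 0) 0 ∨ w = nb (0, 0) 1 := by
  unfold T
  constructor
  · rintro ⟨_, ⟨k, rfl⟩, ⟨l, rfl⟩, h3, h4⟩
    rw [five_iff, Bool.not_eq_true] at h4
    have hkl : k ≠ l := fun h => h3 (by rw [h])
    rcases (five_table k l hkl).1 h4 with ⟨h, _⟩ | ⟨h, _⟩
    · exact Or.inl (by rw [h])
    · exact Or.inr (by rw [h])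
  · rintro (rfl | rfl)
    · refine ⟨nb (0, 0) 1, ⟨0, rfl⟩, ⟨1, rfl⟩, fun h => absurd (nb_inj _ h) (by decide), ?_⟩
      rw [five_iff, Bool.not_eq_true]
      exact (five_table 0 1 (by decide)).2 (Or.inl ⟨rfl, rfl⟩)
    · refine ⟨nb (0, 0) 0, ⟨1, rfl⟩, ⟨0, rfl⟩, fun h => absurd (nb_inj _ h) (by decide), ?_⟩
      rw [five_iff, Bool.not_eq_true]
      exact (five_table 1 0 (by decide)).2 (Or.inr ⟨rfl, rfl⟩)

theorem T_iff (v w : V) : T v w ↔ w = nb v 0 ∨ w = nb v 1 := by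
  obtain ⟨w, rfl⟩ := (affG v.1 v.2 true).surjective w
  have h1 := T_aut (affG v.1 v.2 true) (0, 0) w
  rw [affG_zero] at h1
  rw [h1, T_base]
  have h2 : ∀ k, affG v.1 v.2 true (nb (0, 0) k) = nb v (dir true k) := by
    intro k
    have := aff_nb v.1 v.2 true (0, 0) k
    have h3 : aff v.1 v.2 true (0, 0) = v := affG_zero v
    rw [h3] at this
    exact this
  have h3 := h2 0
  have h4 := h2 1
  have e0 : dir true 0 = 0 := rfl
  have e1 : dir true 1 = 1 := rfl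
  rw [e0] at h3
  rw [e1] at h4
  rw [← h3, ← h4]
  simp [(affG v.1 v.2 true).injective.eq_iff]

/-- A decidable version of `Up` around the base vertex. -/
def up (k : Fin 4) : Bool := decide (∃ a b c d : Fin 4, (k = 0 ∨ k = 1) ∧ (a = 2 ∨ a = 3) ∧
  (b = 0 ∨ b = 1) ∧ (c = 2 ∨ c = 3) ∧ (d = 2 ∨ d = 3) ∧
  nb (nb (nb (nb (nb (0, 0) k) a) b) c) d = (0, 0))

theorem up_table : ∀ k : Fin 4, up k = true ↔ k = 0 := by
  decide +kernel

theorem T_nb (v : V) (k : Fin 4) : T v (nb v k) ↔ k = 0 ∨ k = 1 := by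
  rw [T_iff]
  simp [(nb_inj v).eq_iff]

theorem fin4 (k : Fin 4) : ¬ (k = 0 ∨ k = 1) ↔ (k = 2 ∨ k = 3) := by
  revert k
  decide

theorem not_T_of_eq {v w : V} {k : Fin 4} (h : w = nb v k) : ¬ T v w ↔ (k = 2 ∨ k = 3) := by
  rw [h, T_nb, fin4]

theorem Up_base (w : V) : Up (0, 0) w ↔ w = nb (0, 0) 0 := by
  unfold Up
  constructor
  · rintro ⟨h0, a, b, c, ⟨ka, rfl⟩, h2, h3, ⟨kc, rfl⟩, h5, ⟨kd, h6⟩, h7⟩
    rw [T_base] at h0
    have hw : ∃ k, w = nb (0, 0) k ∧ (k = 0 ∨ k = 1) := by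
      rcases h0 with h | h
      · exact ⟨0, h, Or.inl rfl⟩
      · exact ⟨1, h, Or.inr rfl⟩
    obtain ⟨k, rfl, hk⟩ := hw
    rw [T_nb, fin4] at h2
    rw [T_iff] at h3
    have hb : ∃ l, b = nb (nb (nb (0, 0) k) ka) l ∧ (l = 0 ∨ l = 1) := by
      rcases h3 with h | h
      · exact ⟨0, h, Or.inl rfl⟩
      · exact ⟨1, h, Or.inr rfl⟩
    obtain ⟨kb, rfl, hkb⟩ := hb
    rw [T_nb, fin4] at h5
    rw [not_T_of_eq h6] at h7
    have : up k = true := by
      unfold up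
      rw [decide_eq_true_eq]
      exact ⟨ka, kb, kc, kd, hk, h2, hkb, h5, h7, h6.symm⟩
    rw [(up_table k).1 this]
  · rintro rfl
    have h := (up_table 0).2 rfl
    unfold up at h
    rw [decide_eq_true_eq] at h
    obtain ⟨a, b, c, d, hk, ha, hb, hc, hd, he⟩ := h
    refine ⟨(T_nb _ _).2 hk, _, _, _, ⟨a, rfl⟩, ?_, (T_nb _ b).2 hb, ⟨c, rfl⟩, ?_, ⟨d, he.symm⟩, ?_⟩
    · rw [T_nb, fin4]
      exact ha
    · rw [T_nb, fin4]
      exact hc
    · exact (not_T_of_eq he.symm).2 hd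

theorem Up_iff (v w : V) : Up v w ↔ w = nb v 0 := by
  obtain ⟨w, rfl⟩ := (affG v.1 v.2 true).surjective w
  have h1 := Up_aut (affG v.1 v.2 true) (0, 0) w
  rw [affG_zero] at h1
  rw [h1, Up_base]
  have h3 : affG v.1 v.2 true (nb (0, 0) 0) = nb v 0 := by
    have := aff_nb v.1 v.2 true (0, 0) 0
    have h3 : aff v.1 v.2 true (0, 0) = v := affG_zero v
    rw [h3] at this
    exact this
  rw [← h3]
  simp [(affG v.1 v.2 true).injective.eq_iff]

theorem aut_up (γ : G ≃g G) (v : V) : γ (nb v 0) = nb (γ v) 0 := by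
  rw [← Up_iff, Up_aut, Up_iff]

theorem aut_down (γ : G ≃g G) (v : V) : γ (nb v 1) = nb (γ v) 1 := by
  have h := aut_up γ (nb v 1)
  have h2 : nb (nb v 1) 0 = v := nb_opp v 1
  rw [h2] at h
  rw [h]
  exact (nb_opp (γ (nb v 1)) 0).symm

theorem aut_hor (γ : G ≃g G) (v : V) (k : Fin 4) (hk : k = 2 ∨ k = 3) :
    γ (nb v k) = nb (γ v) 2 ∨ γ (nb v k) = nb (γ v) 3 := by
  have h1 : G.Adj (γ v) (γ (nb v k)) := (adj_aut γ _ _).2 ⟨k, rfl⟩
  obtain ⟨l, hl⟩ := h1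
  have h2 : ¬ T (γ v) (γ (nb v k)) := by
    rw [T_aut, T_nb, fin4]
    exact hk
  rw [hl, T_nb, fin4] at h2
  rcases h2 with h | h
  · left; rw [hl, h]
  · right; rw [hl, h]

/-- An automorphism which fixes two adjacent vertices of a level is the identity. -/
theorem aut_id (γ : G ≃g G) (h0 : γ (0, 0) = (0, 0)) (h1 : γ (1, 0) = (1, 0)) (v : V) : γ v = v := by
  have hnb : ∀ n : ℕ, nb ((n : ZMod 7), 0) 2 = (((n + 1 : ℕ) : ZMod 7), 0) := by
    intro n
    simp [nb, p2_zero]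
  have hlev : ∀ n : ℕ, γ ((n : ZMod 7), 0) = ((n : ZMod 7), 0) ∧
      γ (((n + 1 : ℕ) : ZMod 7), 0) = (((n + 1 : ℕ) : ZMod 7), 0) := by
    intro n
    induction n with
    | zero => simpa using ⟨h0, h1⟩
    | succ n ih =>
      refine ⟨ih.2, ?_⟩
      have h2 := aut_hor γ (((n + 1 : ℕ) : ZMod 7), 0) 2 (Or.inl rfl)
      rw [ih.2, hnb (n + 1)] at h2
      rcases h2 with h2 | h2
      · exact h2
      · exfalso
        have h3 : nb (((n + 1 : ℕ) : ZMod 7), 0) 3 = ((n : ZMod 7), 0) := by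
          simp [nb, p2_zero]
        rw [h3] at h2
        have h4 := γ.injective (h2.trans ih.1.symm)
        have h5 := congrArg Prod.fst h4
        simp only at h5
        push_cast at h5
        have h6 : (2 : ZMod 7) = 0 := by
          calc (2 : ZMod 7) = ((n : ZMod 7) + 1 + 1) - n := by ring
            _ = 0 := by rw [h5, sub_self]
        exact absurd h6 (by decide)
  have hx : ∀ x : ZMod 7, γ (x, 0) = (x, 0) := by
    intro x
    have := (hlev x.val).1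
    rwa [ZMod.natCast_zmod_val] at this
  obtain ⟨x, i⟩ := v
  induction i with
  | zero => exact hx x
  | succ n ih =>
    have h2 : (x, (n : ℤ) + 1) = nb (x, (n : ℤ)) 0 := rfl
    rw [h2, aut_up, ih]
  | pred n ih =>
    have h2 : (x, -(n : ℤ) - 1) = nb (x, -(n : ℤ)) 1 := rfl
    rw [h2, aut_down, ih]

/-- All automorphisms are affine. -/
theorem aut_classify (γ : G ≃g G) : ∃ c j e, γ = affG c j e := by
  set c := (γ (0, 0)).1 with hc
  set j := (γ (0, 0)).2 with hj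
  have h1 := aut_hor γ (0, 0) 2 (Or.inl rfl)
  have h2 : nb ((0 : ZMod 7), (0 : ℤ)) 2 = (1, 0) := by
    simp [nb, p2_zero]
  rw [h2] at h1
  have key : ∀ e, affG c j e (1, 0) = γ (1, 0) → γ = affG c j e := by
    intro e he
    have h3 := aut_id (γ.trans (affG c j e).symm) (by
      show (affG c j e).symm (γ (0, 0)) = (0, 0)
      rw [RelIso.symm_apply_eq, affG_apply]
      simp [hc, hj]) (by
      show (affG c j e).symm (γ (1, 0)) = (1, 0)
      rw [← he, RelIso.symm_apply_apply])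
    ext1 v
    have h4 : (affG c j e).symm (γ v) = v := h3 v
    rw [RelIso.symm_apply_eq] at h4
    exact h4
  have h00 : γ (0, 0) = (c, j) := rfl
  rw [h00] at h1
  rcases h1 with h | h
  · refine ⟨c, j, true, key true ?_⟩
    rw [h, affG_apply]
    simp [sg, nb, add_comm]
  · refine ⟨c, j, false, key false ?_⟩
    rw [h, affG_apply]
    simp [sg, nb]
    ring

end Pool.Agent.Q211.SD
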